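import Pool.Agent.H68.LCS.Targets

/-!
# MP_5607ba_lc, strong transfer, part A: row FLC

The space of the closed invariant sequences is locally compact modulo the kernel of the action.
-/

set_option autoImplicit false

open Set Filter Topology
open scoped Pointwise

namespace Pool.Agent.H52.LCS

open Pool.Agent.H93.CP Pool.Agent.H7.LP Pool.Agent.H7.LQ Pool.Agent.H68.LCS

theorem pf_FLC : T_FLC := by
  intro G _ _ _ R H hP L
  let _ := actF hP
  have hHc : IsClosed (H : Set G) := H.isClosed_of_isOpen hP.op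
  have hemb : IsClosedEmbedding (Subtype.val : H → G) := hHc.isClosedEmbedding_subtypeVal
  have key : ∀ (c : G) (hc : c ∈ H) (r : G) (_ : r ∈ R) (hcr : c * r ∈ H) (y : Fe R),
      (⟨c * r, hcr⟩ : H) • y = (⟨c, hc⟩ : H) • y := by
    intro c hc r hr hcr y
    apply Fe.ext
    funext n
    ext a
    change a * (c * r) ∈ y.y n ↔ a * c ∈ y.y n
    constructor
    · intro h1
      have h2 := y.inv n _ h1 r⁻¹ (R.inv_mem hr)
      have h3 : a * (c * r) * r⁻¹ = a * c := by group
      rwa [h3] at h2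
    · intro h1
      have h2 := y.inv n _ h1 r hr
      rwa [mul_assoc] at h2
  refine ⟨⟨fun p => Subtype.val ⁻¹' L.N p, fun p => Subtype.val ⁻¹' L.W p, ?_, ?_, ?_, ?_, ?_⟩⟩
  · intro p
    exact hemb.isCompact_preimage (L.cpt p)
  · intro p
    exact (L.opn p).preimage continuous_subtype_val
  · intro p
    exact L.one p
  · intro p w hw
    obtain ⟨c, hc, r, hr, hwc⟩ := L.cov p w hw
    have hcH := L.nH p c hc
    refine ⟨⟨c, hcH⟩, hc, fun y => ?_⟩
    have hcr : c * r ∈ H := hwc ▸ w.2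
    have hw2 : w = ⟨c * r, hcr⟩ := Subtype.ext hwc
    rw [hw2]
    exact key c hcH r hr hcr y
  · intro O hO
    rw [nhds_subtype_eq_comap] at hO
    obtain ⟨O1, hO1, hsub⟩ := hO
    obtain ⟨p, hp⟩ := L.sml O1 hO1
    refine ⟨p, fun c hc => ?_⟩
    obtain ⟨r, hr, hcr⟩ := hp c hc
    have hm : (c : G) * r ∈ H := H.mul_mem c.2 (hP.le hr)
    refine ⟨⟨c * r, hm⟩, hsub hcr, fun y => ?_⟩
    exact (key c c.2 r hr hm y).symm

end Pool.Agent.H52.LCS
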